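import Pool.Agent.J6H23.PB.Core

/-!
# MP_6c4343_ag: the Pierce–Birkhoff conjecture for functions with walls in hyperplanes

A continuous function on `ℝ^n`, `n` arbitrary, that is locally polynomial outside finitely many affine
hyperplanes is a maximum of minima of polynomials. This covers all continuous splines, that is all
continuous functions that are polynomial on each polyhedron of a finite polyhedral subdivision of `ℝ^n`,
and all piecewise polynomial functions with pieces `p_1, …, p_k` for which the zero set of each nonzero
difference `p_i - p_j` is contained in finitely many hyperplanes.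

Proof. Let `A`, `B` be chambers and `p_A`, `p_B` the polynomials with which `f` agrees there. Walking from
`A` to `B` on a generic segment one sees that `p_A - p_B = ∑ q_i l_i`, where `l_i` runs through the
equations of the hyperplanes that separate `A` and `B`, with the signs chosen so that `l_i > 0` on `A`.
The polynomial `e_AB = p_B - ∑ l_i (1 + q_i ^ 2)` is at most `f` on `A` and at least `f` on `B`, and
`f = max_B min_A e_AB`.
-/

set_option autoImplicit false

open MvPolynomial Topology

namespace Pool.Agent.Results.MP_6c4343_ag.HyperplaneWalls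

theorem result (n m : ℕ) (a : Fin m → Fin n → ℝ) (b : Fin m → ℝ) (ha : ∀ i, a i ≠ 0)
    (f : (Fin n → ℝ) → ℝ) (hf : Continuous f)
    (hloc : ∀ x, (∀ i, ∑ k, a i k * x k + b i ≠ 0) →
      ∃ P : MvPolynomial (Fin n) ℝ, ∀ᶠ y in 𝓝 x, f y = eval y P) :
    ∃ M K : ℕ, 0 < M ∧ 0 < K ∧ ∃ q : Fin M → Fin K → MvPolynomial (Fin n) ℝ,
      ∀ x, f x = ⨆ i : Fin M, ⨅ j : Fin K, eval x (q i j) :=
  Pool.Agent.J6H23.PB.main a b hf ha hloc

end Pool.Agent.Results.MP_6c4343_ag.HyperplaneWalls
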